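import Pool.Agent.Helper99.WP.GoalsE

/-!
# WP, packet SM3
-/

open Finset MeasureTheory ProbabilityTheory Filter

namespace Pool.Agent.Helper89.WP

open Pool.Agent.Helper99.ERW Pool.Agent.Helper99.WP

universe u

/-- the laws of the arrows are probability distributions -/
theorem isW_arrW {d : ℕ} (ω : Env d) (Λ : Finset (Site d)) (hω : IsCookieEnv ω) :
    IsW (arrW ω Λ) := by
  intro y k
  obtain ⟨h1, h2⟩ := hω y k
  constructor
  · intro c
    cases c with
    | none =>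
      refine Finset.sum_nonneg fun e _ => ?_
      split_ifs
      · exact le_rfl
      · exact h1 e
    | some z =>
      refine Finset.sum_nonneg fun e _ => ?_
      split_ifs
      · exact h1 e
      · exact le_rfl
  · rw [Fintype.sum_option]
    have e1 : (∑ z : Λ, arrW ω Λ y k (some z)) =
        ∑ e : Dir d, if (y : Site d) + vec e ∈ Λ then ω y e k else 0 := by
      change (∑ z : Λ, ∑ e : Dir d, if (y : Site d) + vec e = z then ω y e k else 0) = _
      rw [Finset.sum_comm]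
      refine Finset.sum_congr rfl fun e _ => ?_
      rw [Finset.sum_coe_sort Λ (fun z => if (y : Site d) + vec e = z then ω y e k else 0)]
      rw [Finset.sum_ite_eq]
    have e2 : arrW ω Λ y k none =
        ∑ e : Dir d, if (y : Site d) + vec e ∈ Λ then 0 else ω y e k := rfl
    rw [e1, e2, ← Finset.sum_add_distrib, ← h2]
    refine Finset.sum_congr rfl fun e _ => ?_
    split_ifs <;> simp

theorem SM3 (hUPR : UPR_stmt) (hVGE : VGE_stmt.{u}) (hVMS : VMS_stmt) (hQQQ : QQQ_stmt)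
    (hPR1 : PR1_stmt) : SM3_stmt.{u} := by
  intro d hd κ hκ
  obtain ⟨C0, hC0, hU⟩ := hUPR d hd κ hκ
  refine ⟨C0 * 2 ^ d, by positivity, ?_⟩
  intro Ω _ P _ μ _ env X hERW hOk hst M
  obtain ⟨-, hq2, -, -, hq5, hq6⟩ := hQQQ d
  set Λ : Finset (Site d) := Q (2 * M) 0 with hΛ
  set N : ℕ := M + 1 with hN
  set S : ENNReal := ∑ i ∈ Finset.range (M + 2), μ (⋃ m ∈ Finset.range (M + 1), AtV X i m) with hS
  have hsub : Q M (0 : Site d) ⊆ Λ := hq6 M (2 * M) 0 (by omega)
  have hce : ∀ᵐ ω ∂P, IsCookieEnv ω := hOk.mono fun ω h => h.1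
  let F : Λ → ENNReal := fun x => ∑ i ∈ Finset.range (N + 1),
    ∫⁻ ω, ENNReal.ofReal (vis (arrW ω Λ) N x i) ∂P
  let G : Site d → ENNReal := fun x => if h : x ∈ Λ then F ⟨x, h⟩ else 0
  have hSG : ∀ x ∈ Q M (0 : Site d), S ≤ G x := by
    intro x hx
    have hxΛ : x ∈ Λ := hsub hx
    have hQ : Q M x ⊆ Λ := by
      have := hq5 M M x 0 hx
      rwa [← two_mul] at this
    change S ≤ if h : x ∈ Λ then F ⟨x, h⟩ else 0
    rw [dif_pos hxΛ, hS]
    change _ ≤ ∑ i ∈ Finset.range (N + 1), _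
    exact Finset.sum_le_sum fun i _ =>
      hVGE d Ω _ P μ env X hERW hce hst Λ N M ⟨x, hxΛ⟩ i hQ (by omega)
  have h1 : ((Q M (0 : Site d)).card : ENNReal) * S ≤ ∑ x : Λ, F x := by
    calc ((Q M (0 : Site d)).card : ENNReal) * S = ∑ x ∈ Q M (0 : Site d), S := by
          rw [Finset.sum_const, nsmul_eq_mul]
      _ ≤ ∑ x ∈ Q M (0 : Site d), G x := Finset.sum_le_sum hSG
      _ ≤ ∑ x ∈ Λ, G x := Finset.sum_le_sum_of_subset hsub
      _ = ∑ x : Λ, G x := (Finset.sum_coe_sort Λ G).symm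
      _ = ∑ x : Λ, F x := by
          refine Finset.sum_congr rfl fun x _ => ?_
          change (if h : (x : Site d) ∈ Λ then F ⟨x, h⟩ else 0) = F x
          rw [dif_pos x.2]
  have hmeas : ∀ (x : Λ) (i : ℕ),
      Measurable (fun ω : Env d => ENNReal.ofReal (vis (arrW ω Λ) N x i)) :=
    fun x i => ENNReal.measurable_ofReal.comp (hVMS d Λ N x i)
  have h2 : ∑ x : Λ, F x ≤ ENNReal.ofReal (C0 * Λ.card) := by
    have e1 : ∑ x : Λ, F x = ∫⁻ ω, ∑ x : Λ, ∑ i ∈ Finset.range (N + 1),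
        ENNReal.ofReal (vis (arrW ω Λ) N x i) ∂P := by
      rw [lintegral_finsetSum _ (fun x _ => Finset.measurable_sum _ fun i _ => hmeas x i)]
      refine Finset.sum_congr rfl fun x _ => ?_
      rw [lintegral_finsetSum _ (fun i _ => hmeas x i)]
    rw [e1]
    have e2 : ∫⁻ ω, ∑ x : Λ, ∑ i ∈ Finset.range (N + 1),
        ENNReal.ofReal (vis (arrW ω Λ) N x i) ∂P ≤ ∫⁻ _, ENNReal.ofReal (C0 * Λ.card) ∂P := by
      refine lintegral_mono_ae (hOk.mono fun ω hω => ?_)
      have hW := isW_arrW ω Λ hω.1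
      have hv : ∀ (x : Λ) (i : ℕ), 0 ≤ vis (arrW ω Λ) N x i := fun x i =>
        (((hPR1 Λ (arrW ω Λ) N hW).2.2 x).2.1 i).1
      have e3 : ∑ x : Λ, ∑ i ∈ Finset.range (N + 1), ENNReal.ofReal (vis (arrW ω Λ) N x i) =
          ENNReal.ofReal (∑ x : Λ, ∑ i ∈ Finset.range (N + 1), vis (arrW ω Λ) N x i) := by
        rw [ENNReal.ofReal_sum_of_nonneg
          (fun x _ => Finset.sum_nonneg fun i _ => hv x i)]
        refine Finset.sum_congr rfl fun x _ => ?_
        rw [ENNReal.ofReal_sum_of_nonneg (fun i _ => hv x i)]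
      rw [e3]
      exact ENNReal.ofReal_le_ofReal (hU ω hω (2 * M) N)
    refine e2.trans ?_
    rw [lintegral_const, measure_univ, mul_one]
  have h3 : ENNReal.ofReal (C0 * Λ.card) ≤
      ((Q M (0 : Site d)).card : ENNReal) * ENNReal.ofReal (C0 * 2 ^ d) := by
    rw [← ENNReal.ofReal_natCast, ← ENNReal.ofReal_mul (Nat.cast_nonneg _)]
    apply ENNReal.ofReal_le_ofReal
    have hc : Λ.card ≤ 2 ^ d * (Q M (0 : Site d)).card := by
      rw [hΛ, hq2, hq2, ← mul_pow]
      exact Nat.pow_le_pow_left (by omega) d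
    have hc' : (Λ.card : ℝ) ≤ 2 ^ d * (Q M (0 : Site d)).card := by exact_mod_cast hc
    calc C0 * (Λ.card : ℝ) ≤ C0 * (2 ^ d * (Q M (0 : Site d)).card) :=
          mul_le_mul_of_nonneg_left hc' hC0
      _ = ((Q M (0 : Site d)).card : ℝ) * (C0 * 2 ^ d) := by ring
  have h4 := h1.trans (h2.trans h3)
  have hpos : ((Q M (0 : Site d)).card : ENNReal) ≠ 0 := by
    rw [hq2]
    positivity
  exact (ENNReal.mul_le_mul_iff_right hpos (ENNReal.natCast_ne_top _)).1 h4

end Pool.Agent.Helper89.WP
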