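import Pool.Agent.Helper99.WP.GoalsK

/-!
# WP, packet TEL
-/

open Finset

namespace Pool.Agent.Helper89.WP

open Pool.Agent.Helper99.ERW Pool.Agent.Helper99.WP

theorem lap_sub_sub {d : ℕ} (p : Site d → Fin d → ℝ) (a b : Site d → ℝ) (m : ℝ) (y : Site d) :
    lap p (fun z => a z - b z - m) y = lap p a y - lap p b y := by
  unfold lap
  rw [← Finset.sum_sub_distrib]
  refine Finset.sum_congr rfl fun l _ => ?_
  ring

theorem TEL (hGEX : GEX_stmt) (hGCM : GCM_stmt) : TEL_stmt := by
  intro d κ p hκ hp D D' x m hD hx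
  have hs : IsSol p D (ind {x}) (Gr p D (ind {x})) := (hGEX d κ p hκ hp D (ind {x})).1
  have hs' : IsSol p D' (ind {x}) (Gr p D' (ind {x})) := (hGEX d κ p hκ hp D' (ind {x})).1
  have h0 : (fun _ => 0 : Site d → ℝ) = Gr p D (fun _ => 0) := by
    refine (hGEX d κ p hκ hp D (fun _ => 0)).2 (fun _ => 0) ⟨fun _ _ => rfl, fun y _ => ?_⟩
    unfold lap
    simp
  have hlap : ∀ y ∈ D, lap p (fun z => gg p D' z x - gg p D z x - m) y = 0 := by
    intro y hy
    rw [lap_sub_sub]
    have e1 : lap p (fun z => gg p D' z x) y = - ind {x} y := hs'.2 y (hD hy)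
    have e2 : lap p (fun z => gg p D z x) y = - ind {x} y := hs.2 y hy
    rw [e1, e2, sub_self]
  obtain ⟨h1, h2, -⟩ := hGCM d κ p hκ hp D
  constructor
  · intro hB
    have h3 := h2 (fun _ => 0) (fun z => gg p D' z x - gg p D z x - m)
      (fun y hy => by rw [hlap y hy]; simp) (by
        intro y hy l
        refine ⟨fun hn => ?_, fun hn => ?_⟩
        · have e1 : gg p D (y + ev l) x = 0 := hs.1 _ hn
          have e2 := (hB y hy l).1 hn
          change 0 ≤ gg p D' (y + ev l) x - gg p D (y + ev l) x - m
          rw [e1]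
          linarith
        · have e1 : gg p D (y - ev l) x = 0 := hs.1 _ hn
          have e2 := (hB y hy l).2 hn
          change 0 ≤ gg p D' (y - ev l) x - gg p D (y - ev l) x - m
          rw [e1]
          linarith) x hx
    rw [← h0] at h3
    change 0 ≤ gg p D' x x - gg p D x x - m at h3
    linarith
  · intro hB
    have h3 := h1 (fun _ => 0) (fun z => gg p D' z x - gg p D z x - m)
      (fun y hy => by rw [hlap y hy]; simp) (by
        intro y hy l
        refine ⟨fun hn => ?_, fun hn => ?_⟩
        · have e1 : gg p D (y + ev l) x = 0 := hs.1 _ hn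
          have e2 := (hB y hy l).1 hn
          change gg p D' (y + ev l) x - gg p D (y + ev l) x - m ≤ 0
          rw [e1]
          linarith
        · have e1 : gg p D (y - ev l) x = 0 := hs.1 _ hn
          have e2 := (hB y hy l).2 hn
          change gg p D' (y - ev l) x - gg p D (y - ev l) x - m ≤ 0
          rw [e1]
          linarith) x hx
    rw [← h0] at h3
    change gg p D' x x - gg p D x x - m ≤ 0 at h3
    linarith

end Pool.Agent.Helper89.WP
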